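import Mathlib
import Pool.Agent.TH137.MZ.Final

set_option autoImplicit false

/-! # Growth of the weight spaces and the field of quotients of equal weight -/

namespace Pool.Agent.TH981.RF

open Finset Pool.Agent.TH137.MZ

variable {A : ℕ → Submodule ℚ ℝ}

theorem common (h : Mul A) (s : Finset ℝ) (hs : ∀ f ∈ s, f ∈ quot A h) :
    ∃ k, ∃ y ∈ A k, y ≠ 0 ∧ ∀ f ∈ s, f * y ∈ A k := by
  classical
  induction s using Finset.induction_on with
  | empty => exact ⟨0, 1, h.one, one_ne_zero, by simp⟩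
  | insert f s hf ih =>
    obtain ⟨k, y, hy, hy0, hall⟩ := ih (fun g hg => hs g (mem_insert_of_mem hg))
    obtain ⟨l, x, hx, z, hz, hz0, hfe⟩ := hs f (mem_insert_self f s)
    refine ⟨k + l, y * z, h.mul _ _ _ _ hy hz, mul_ne_zero hy0 hz0, ?_⟩
    intro g hg
    rcases mem_insert.mp hg with rfl | hg
    · have e : g * (y * z) = y * x := by rw [hfe]; field_simp
      rw [e]
      exact h.mul _ _ _ _ hy hx
    · rw [← mul_assoc]
      exact h.mul _ _ _ _ (hall g hg) hz

theorem card_le {ι : Type*} [Fintype ι] {n : ℕ} (hfin : FiniteDimensional ℚ (A n)) (g : ι → ℝ)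
    (hg : LinearIndependent ℚ g) (y : ℝ) (hy : y ≠ 0) (hm : ∀ i, g i * y ∈ A n) :
    Fintype.card ι ≤ Module.finrank ℚ (A n) := by
  have h1 : LinearIndependent ℚ (fun i => g i * y) := by
    have h2 := hg.map' (LinearMap.mulRight ℚ y) (LinearMap.ker_eq_bot.2 (mul_left_injective₀ hy))
    exact h2
  have h3 : LinearIndependent ℚ (fun i => (⟨g i * y, hm i⟩ : A n)) :=
    LinearIndependent.of_comp (A n).subtype h1
  exact h3.fintype_card_le_finrank

theorem prod_mem (h : Mul A) {ι : Type*} (K : ℕ) (x : ι → ℝ) (hx : ∀ i, x i ∈ A K) (a : ι → ℕ)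
    (s : Finset ι) : ∏ i ∈ s, x i ^ a i ∈ A (K * ∑ i ∈ s, a i) := by
  classical
  induction s using Finset.induction_on with
  | empty => simpa using h.one
  | insert i s hi ih =>
    rw [prod_insert hi, sum_insert hi, mul_add]
    exact h.mul _ _ _ _ (h.pow _ _ (hx i) _) ih

theorem growth (h : Mul A) (hfin : ∀ n, FiniteDimensional ℚ (A n))
    (hne : ∀ n, 2 ≤ n → ∃ v ∈ A n, v ≠ 0)
    (m : ℕ) (f : Fin m → ℝ) (hf : ∀ i, f i ∈ quot A h) (hi : AlgebraicIndependent ℚ f) :
    ∃ k, 1 ≤ k ∧ ∀ n, 2 ≤ n → ((n - 2) / k + m).choose m ≤ Module.finrank ℚ (A n) := by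
  classical
  obtain ⟨k, y, hy, hy0, hall⟩ := common h (univ.image f) (by simpa using hf)
  obtain ⟨u, hu, hu0⟩ := hne 2 le_rfl
  refine ⟨k + 2, by omega, fun n hn => ?_⟩
  set N := (n - 2) / (k + 2) with hN
  have hN' : (k + 2) * N ≤ n - 2 := Nat.mul_div_le _ _
  obtain ⟨v, hv, hv0⟩ := hne (n - (k + 2) * N) (by omega)
  set Y := y * u with hY
  have hY' : Y ∈ A (k + 2) := h.mul _ _ _ _ hy hu
  have hY0 : Y ≠ 0 := mul_ne_zero hy0 hu0
  have hfY : ∀ i, f i * Y ∈ A (k + 2) := by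
    intro i
    rw [hY, ← mul_assoc]
    exact h.mul _ _ _ _ (hall _ (mem_image_of_mem f (mem_univ i))) hu
  let I := {e // e ∈ (univ : Finset (Fin (m + 1))).finsuppAntidiag N}
  let g : I → ℝ := fun e => ∏ i : Fin m, f i ^ (e.1 i.succ)
  have hsum : ∀ e : I, e.1 0 + ∑ i : Fin m, e.1 i.succ = N := by
    intro e
    have h1 := (mem_finsuppAntidiag.mp e.2).1
    rw [Fin.sum_univ_succ] at h1
    exact h1
  have hgi : LinearIndependent ℚ g := by
    have h1 := (MvPolynomial.basisMonomials (Fin m) ℚ).linearIndependent.map'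
      (MvPolynomial.aeval f).toLinearMap (LinearMap.ker_eq_bot.2 hi)
    have hinj : Function.Injective (fun e : I => Finsupp.tail e.1) := by
      intro e e' hee
      have h3 : ∀ i : Fin m, e.1 i.succ = e'.1 i.succ := by
        intro i
        have := DFunLike.congr_fun hee i
        simpa [Finsupp.tail_apply] using this
      apply Subtype.ext
      ext i
      refine Fin.cases ?_ (fun j => h3 j) i
      have h4 := hsum e
      have h5 := hsum e'
      rw [sum_congr rfl (fun i _ => h3 i)] at h4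
      omega
    have h2 := h1.comp _ hinj
    have e : ((⇑(MvPolynomial.aeval f).toLinearMap ∘ ⇑(MvPolynomial.basisMonomials (Fin m) ℚ)) ∘
        fun e : I => Finsupp.tail e.1) = g := by
      funext e
      simp only [Function.comp_apply, MvPolynomial.coe_basisMonomials, AlgHom.toLinearMap_apply]
      rw [MvPolynomial.aeval_monomial, map_one, one_mul, Finsupp.prod_fintype _ _ (by simp)]
      rfl
    rwa [e] at h2
  have hmem : ∀ e : I, g e * (Y ^ N * v) ∈ A n := by
    intro e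
    have h1 : g e * Y ^ N = Y ^ (e.1 0) * ∏ i : Fin m, (f i * Y) ^ (e.1 i.succ) := by
      have h2 : ∏ i : Fin m, (f i * Y) ^ (e.1 i.succ) =
          g e * Y ^ (∑ i : Fin m, e.1 i.succ) := by
        rw [← prod_pow_eq_pow_sum, ← prod_mul_distrib]
        exact prod_congr rfl (fun i _ => mul_pow _ _ _)
      rw [h2]
      nth_rewrite 1 [← hsum e]
      rw [pow_add]
      ring
    rw [← mul_assoc, h1]
    have h3 := h.mul _ _ _ _ (h.mul _ _ _ _ (h.pow _ _ hY' (e.1 0))
      (prod_mem h (k + 2) (fun i => f i * Y) hfY (fun i => e.1 i.succ) univ)) hv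
    have h4 : (k + 2) * e.1 0 + (k + 2) * ∑ i : Fin m, e.1 i.succ + (n - (k + 2) * N) = n := by
      rw [← mul_add, hsum e]
      omega
    rwa [h4] at h3
  have h5 := card_le (hfin n) g hgi _ (mul_ne_zero (pow_ne_zero _ hY0) hv0) hmem
  have h6 : Fintype.card I = (N + m).choose m := by
    rw [Fintype.card_coe, card_finsuppAntidiag_nat_eq_choose, card_univ, Fintype.card_fin]
    have : ∀ N : ℕ, m + 1 + N - 1 = N + m := fun N => by omega
    rw [this]
    exact Nat.choose_symm_add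
  rwa [h6] at h5

/-- the field as an intermediate field -/
noncomputable def fld (h : Mul A) : IntermediateField ℚ ℝ :=
  (quot A h).toIntermediateField (by
    intro q
    refine ⟨0, q • 1, (A 0).smul_mem q h.one, 1, h.one, one_ne_zero, ?_⟩
    rw [div_one, Algebra.smul_def, mul_one])

theorem mem_fld {h : Mul A} {x : ℝ} : x ∈ fld h ↔ x ∈ quot A h := Iff.rfl

theorem div_mem_fld (h : Mul A) {k : ℕ} {x y : ℝ} (hx : x ∈ A k) (hy : y ∈ A k) (hy0 : y ≠ 0) :
    x / y ∈ fld h := mem_quot (h := h) hx hy hy0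

theorem exists_ge (h : Mul A) (hfin : ∀ n, FiniteDimensional ℚ (A n))
    (hne : ∀ n, 2 ≤ n → ∃ v ∈ A n, v ≠ 0) (B : ℕ) (hB : (B : Cardinal) ≤ Module.rank ℚ (fld h)) :
    ∃ n₀, ∀ n, n₀ ≤ n → B ≤ Module.finrank ℚ (A n) := by
  classical
  obtain ⟨s, hs, hi⟩ := le_rank_iff_exists_linearIndependent_finset.mp hB
  obtain ⟨k, y, hy, hy0, hall⟩ := common h (s.image Subtype.val) (by
    intro f hf
    obtain ⟨g, _, rfl⟩ := mem_image.mp hf
    exact g.2)
  refine ⟨k + 2, fun n hn => ?_⟩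
  obtain ⟨v, hv, hv0⟩ := hne (n - k) (by omega)
  have h1 : LinearIndependent ℚ (fun x : s => ((x : fld h) : ℝ)) := by
    have h2 := hi.map' (fld h).val.toLinearMap (LinearMap.ker_eq_bot.2 Subtype.val_injective)
    exact h2
  have h3 := card_le (hfin n) _ h1 (y * v) (mul_ne_zero hy0 hv0) (by
    intro x
    rw [← mul_assoc]
    have h4 := h.mul _ _ _ _ (hall _ (mem_image_of_mem _ x.2)) hv
    have h5 : k + (n - k) = n := by omega
    rwa [h5] at h4)
  rwa [Fintype.card_coe, hs] at h3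

theorem le_fld (h : Mul A) (hfin : ∀ n, FiniteDimensional ℚ (A n)) [FiniteDimensional ℚ (fld h)]
    (n : ℕ) : Module.finrank ℚ (A n) ≤ Module.finrank ℚ (fld h) := by
  by_cases h0 : ∃ v ∈ A n, v ≠ 0
  · obtain ⟨v, hv, hv0⟩ := h0
    let φ : A n →ₗ[ℚ] fld h :=
      { toFun := fun y => ⟨y.1 / v, div_mem_fld h y.2 hv hv0⟩
        map_add' := fun a b => Subtype.ext (add_div _ _ _)
        map_smul' := fun c a => Subtype.ext (by
          change (c • (a : ℝ)) / v = c • ((a : ℝ) / v)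
          rw [Rat.smul_def, Rat.smul_def, mul_div_assoc]) }
    refine LinearMap.finrank_le_finrank_of_injective (f := φ) ?_
    intro a b hab
    have h1 : (a : ℝ) / v = (b : ℝ) / v := congrArg Subtype.val hab
    exact Subtype.ext (by rwa [div_left_inj' hv0] at h1)
  · push Not at h0
    have h1 : A n = ⊥ := by
      rw [Submodule.eq_bot_iff]
      exact h0
    rw [h1, finrank_bot]
    exact Nat.zero_le _

theorem stable (h : Mul A) (hfin : ∀ n, FiniteDimensional ℚ (A n))
    (hne : ∀ n, 2 ≤ n → ∃ v ∈ A n, v ≠ 0) [FiniteDimensional ℚ (fld h)] :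
    ∃ n₀, ∀ n, n₀ ≤ n → Module.finrank ℚ (A n) = Module.finrank ℚ (fld h) ∧
      ∀ v ∈ A n, v ≠ 0 → ∀ y, y ∈ A n ↔ y / v ∈ fld h := by
  obtain ⟨n₀, hn₀⟩ := exists_ge h hfin hne (Module.finrank ℚ (fld h)) (by
    rw [Module.finrank_eq_rank])
  refine ⟨n₀, fun n hn => ?_⟩
  have heq : Module.finrank ℚ (A n) = Module.finrank ℚ (fld h) :=
    le_antisymm (le_fld h hfin n) (hn₀ n hn)
  refine ⟨heq, fun v hv hv0 y => ⟨fun hy => div_mem_fld h hy hv hv0, fun hy => ?_⟩⟩
  -- multiplication by `v` maps the field onto `A n`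
  have hle : A n ≤ (Subalgebra.toSubmodule (fld h).toSubalgebra).map (LinearMap.mulRight ℚ v) := by
    intro z hz
    refine ⟨z / v, div_mem_fld h hz hv hv0, ?_⟩
    rw [LinearMap.mulRight_apply, div_mul_cancel₀ _ hv0]
  have hfd : FiniteDimensional ℚ (Subalgebra.toSubmodule (fld h).toSubalgebra) :=
    (inferInstance : FiniteDimensional ℚ (fld h))
  have hr : Module.finrank ℚ ((Subalgebra.toSubmodule (fld h).toSubalgebra).map
      (LinearMap.mulRight ℚ v)) ≤ Module.finrank ℚ (A n) := by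
    rw [heq]
    exact Submodule.finrank_map_le _ _
  have h1 := Submodule.eq_of_le_of_finrank_le hle hr
  rw [h1]
  refine ⟨y / v, hy, ?_⟩
  rw [LinearMap.mulRight_apply, div_mul_cancel₀ _ hv0]

theorem bounded_iff (h : Mul A) (hfin : ∀ n, FiniteDimensional ℚ (A n))
    (hne : ∀ n, 2 ≤ n → ∃ v ∈ A n, v ≠ 0) :
    (∃ B, ∀ n, Module.finrank ℚ (A n) ≤ B) ↔ FiniteDimensional ℚ (fld h) := by
  constructor
  · rintro ⟨B, hB⟩
    by_contra hcon
    have h1 : Cardinal.aleph0 ≤ Module.rank ℚ (fld h) := by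
      rw [← not_lt, Module.rank_lt_aleph0_iff]
      exact hcon
    obtain ⟨n₀, hn₀⟩ := exists_ge h hfin hne (B + 1) ((Cardinal.natCast_lt_aleph0.le).trans h1)
    have h2 := hn₀ n₀ le_rfl
    have h3 := hB n₀
    omega
  · intro hF
    exact ⟨_, le_fld h hfin⟩

theorem tends (h : Mul A) (hfin : ∀ n, FiniteDimensional ℚ (A n))
    (hne : ∀ n, 2 ≤ n → ∃ v ∈ A n, v ≠ 0) (hF : ¬ FiniteDimensional ℚ (fld h)) (B : ℕ) :
    ∃ n₀, ∀ n, n₀ ≤ n → B ≤ Module.finrank ℚ (A n) := by
  have h1 : Cardinal.aleph0 ≤ Module.rank ℚ (fld h) := by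
    rw [← not_lt, Module.rank_lt_aleph0_iff]
    exact hF
  exact exists_ge h hfin hne B ((Cardinal.natCast_lt_aleph0.le).trans h1)

end Pool.Agent.TH981.RF
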